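import Pool.Agent.helper88.PF.Spec

/-!
# Row `pf:ARC`
-/

set_option linter.unusedVariables false

namespace PF

noncomputable section

/-- a function of a finite set of decided values, by a list of cases -/
def ARC_case {Y α σ : Type} (dec : α → Y → Bool) (h : α → σ) (d : σ) : List α → Y → σ
  | [], _ => d
  | a :: l, y => bif dec a y then h a else ARC_case dec h d l y

theorem ARC_case_comp {Y α σ : Type} [Primcodable Y] [Primcodable σ] (dec : α → Y → Bool)
    (hdec : ∀ a, Computable (dec a)) (h : α → σ) (d : σ) (l : List α) :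
    Computable (ARC_case dec h d l) := by
  induction l with
  | nil => exact Computable.const d
  | cons a l ih => exact Computable.cond (hdec a) (Computable.const (h a)) ih

theorem ARC_case_eq {Y α σ : Type} (dec : α → Y → Bool) (f : Y → α)
    (hf : ∀ a y, dec a y = true ↔ f y = a) (h : α → σ) (d : σ) (l : List α) (y : Y)
    (hy : f y ∈ l) : ARC_case dec h d l y = h (f y) := by
  induction l with
  | nil => exact absurd hy (List.not_mem_nil)
  | cons a l ih =>
    show (bif dec a y then h a else ARC_case dec h d l y) = h (f y)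
    by_cases hb : dec a y = true
    · rw [hb, cond_true, (hf a y).1 hb]
    · have hne : f y ≠ a := fun h => hb ((hf a y).2 h)
      rw [Bool.not_eq_true] at hb
      rw [hb, cond_false]
      exact ih ((List.mem_cons.1 hy).resolve_left hne)

/-- a function of a computable function with values in a finite set -/
theorem ARC_fin {Y α σ : Type} [Primcodable Y] [Primcodable σ] [Finite α] (f : Y → α) (hf : Cmp f)
    (h : α → σ) (d : σ) : Computable (fun y => h (f y)) := by
  classical
  have hex : ∀ a : α, ∃ g : Y → Bool, Computable g ∧ ∀ y, g y = true ↔ f y = a := by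
    intro a
    obtain ⟨hd, hc⟩ := hf a
    exact ⟨fun y => @decide (f y = a) (hd y), hc, fun y => @decide_eq_true_iff _ (hd y)⟩
  choose dec hdec hdec2 using hex
  obtain ⟨l, -, hl⟩ := Finite.exists_univ_list α
  have := ARC_case_comp dec hdec h d l
  refine this.of_eq fun y => ARC_case_eq dec f hdec2 h d l y (hl _)

theorem ARC_cmp {Y α : Type} [Primcodable Y] (n : ℕ) (T : Y → Fin n) (hT : Computable T)
    (e : Fin n ≃ α) : Cmp (fun y => e (T y)) := by
  intro v
  have h1 : Computable (fun i : Fin n => decide (i = e.symm v)) :=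
    (Primrec.dom_finite _).to_comp
  refine ⟨fun y => decidable_of_iff (T y = e.symm v) e.eq_symm_apply, ?_⟩
  refine (h1.comp hT).of_eq fun y => ?_
  rw [decide_eq_decide]
  exact e.eq_symm_apply

theorem ARC (hACP : ACP_stmt) : ARC_stmt := by
  classical
  intro X _ α γ _ _ a₀ G I hI
  rcases isEmpty_or_nonempty X with hX | hX
  · exact ⟨fun _ => a₀, hACP.2.2.2.2 _ _ a₀, fun x => (hX.false x).elim,
      fun x => (hX.false x).elim⟩
  obtain ⟨x₀⟩ := hX
  obtain ⟨n, ⟨ea⟩⟩ := Finite.exists_equiv_fin α
  obtain ⟨m, ⟨ec⟩⟩ := Finite.exists_equiv_fin γ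
  have hJ : Computable (fun p : X × ℕ => ec (I p)) := ARC_fin I hI ec (ec (I (x₀, 0)))
  obtain ⟨tab, htab⟩ : ∃ tab : Fin n × Fin m → Fin n, ∀ i j, tab (i, j) =
      ea (G (ea.symm i) (ec.symm j)) := ⟨fun p => ea (G (ea.symm p.1) (ec.symm p.2)), fun _ _ => rfl⟩
  have htabc : Computable tab := (Primrec.dom_finite _).to_comp
  obtain ⟨T, hT⟩ : ∃ T : X × ℕ → Fin n, ∀ p, T p =
      Nat.rec (motive := fun _ => Fin n) (ea a₀) (fun t ih => tab (ih, ec (I (p.1, t)))) p.2 :=
    ⟨_, fun _ => rfl⟩
  have hTc : Computable T := by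
    have hh : Computable₂ (fun (p : X × ℕ) (q : ℕ × Fin n) => tab (q.2, ec (I (p.1, q.1)))) := by
      have h1 : Computable (fun z : (X × ℕ) × (ℕ × Fin n) => z.2.2) :=
        Computable.snd.comp Computable.snd
      have h2 : Computable (fun z : (X × ℕ) × (ℕ × Fin n) => ec (I (z.1.1, z.2.1))) :=
        hJ.comp ((Computable.fst.comp Computable.fst).pair (Computable.fst.comp Computable.snd))
      exact htabc.comp (h1.pair h2)
    refine (Computable.nat_rec Computable.snd (Computable.const (ea a₀)) hh).of_eq fun p => ?_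
    rw [hT]
  refine ⟨fun p => ea.symm (T p), ARC_cmp n T hTc ea.symm, ?_, ?_⟩
  · intro x
    show ea.symm (T (x, 0)) = a₀
    rw [hT]
    exact ea.symm_apply_apply a₀
  · intro x s
    show ea.symm (T (x, s + 1)) = G (ea.symm (T (x, s))) (I (x, s))
    have : T (x, s + 1) = tab (T (x, s), ec (I (x, s))) := by
      rw [hT, hT]
    rw [this, htab, Equiv.symm_apply_apply, Equiv.symm_apply_apply]

end

end PF
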